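import Pool.Agent.Lib.MP_4fbe7c_an.WH.H65.Base

/-!
Project WH, module CMP: comparison of `d_j y_j` and `d_i y_i`.
-/

set_option autoImplicit false

open Set MeasureTheory

namespace Pool.Agent.Lib.MP_4fbe7c_an.WH.H65

open Pool.Agent.Lib.MP_4fbe7c_an.SD Pool.Agent.Lib.MP_4fbe7c_an.FC
open Pool.Agent.Lib.MP_4fbe7c_an.WH

theorem cmp_alg (lam a a₂ di dj Y Di Dj Ai Aj : ℝ) (ha : 0 < a) (hl : 1 < lam) (h1 : a ≤ di)
    (h2 : di ≤ a₂) (h3 : lam * di ≤ dj) (hY : 0 ≤ Y) (hDi : 0 ≤ Di) (hDj : 0 ≤ Dj)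
    (hAj : Aj ≤ (1 + (lam - 1) / (2 * (lam + 1))) * Y +
      (1 + 1 / ((lam - 1) / (2 * (lam + 1)))) * Dj)
    (hAi : (1 - (lam - 1) / (2 * (lam + 1))) * Y - 1 / ((lam - 1) / (2 * (lam + 1))) * Di ≤ Ai) :
    Aj / dj - Ai / di ≤ -((1 - 1 / lam) / (2 * a₂) * Y) +
      4 * (lam + 1) / ((lam - 1) * a) * (Di + Dj) := by
  have hl0 : 0 < lam - 1 := by linarith
  have hl1 : 0 < lam + 1 := by linarith
  have hlp : 0 < lam := by linarith
  have hdi : 0 < di := by linarith
  have hdj : 0 < dj := lt_of_lt_of_le (by positivity) h3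
  have hadj : a ≤ dj := by nlinarith
  have ha2 : 0 < a₂ := by linarith
  set τ := (lam - 1) / (2 * (lam + 1)) with hτ
  have hτ0 : 0 < τ := by positivity
  have hτinv : 1 / τ = 2 * (lam + 1) / (lam - 1) := by
    rw [hτ]; field_simp
  have hτinv1 : 1 ≤ 1 / τ := by
    rw [hτinv, le_div_iff₀ hl0]; linarith
  -- the coefficient of `Y`
  have e1 : (1 + τ) / lam - (1 - τ) = -((1 - 1 / lam) / 2) := by
    rw [hτ]; field_simp; ring
  have b1 : (1 + τ) * Y / dj ≤ (1 + τ) * Y / (lam * di) := by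
    gcongr
  have b2 : (1 + 1 / τ) * Dj / dj ≤ (1 + 1 / τ) * Dj / a := by
    gcongr
  have b3 : 1 / τ * Di / di ≤ 1 / τ * Di / a := by
    gcongr
  have c1 : Aj / dj ≤ (1 + τ) * Y / dj + (1 + 1 / τ) * Dj / dj := by
    rw [← add_div]
    gcongr
  have c2 : (1 - τ) * Y / di - 1 / τ * Di / di ≤ Ai / di := by
    rw [← sub_div]
    gcongr
  have c3 : (1 + τ) * Y / (lam * di) - (1 - τ) * Y / di = -((1 - 1 / lam) / (2 * di) * Y) := by
    have : (1 + τ) * Y / (lam * di) - (1 - τ) * Y / di = ((1 + τ) / lam - (1 - τ)) * (Y / di) := by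
      field_simp
    rw [this, e1]
    field_simp
  have c4 : (1 - 1 / lam) / (2 * a₂) * Y ≤ (1 - 1 / lam) / (2 * di) * Y := by
    have : 0 ≤ 1 - 1 / lam := by
      rw [sub_nonneg, div_le_one hlp]; linarith
    gcongr
  have c5 : (1 + 1 / τ) * Dj / a ≤ 4 * (lam + 1) / ((lam - 1) * a) * Dj := by
    have : 4 * (lam + 1) / ((lam - 1) * a) * Dj = (2 * (1 / τ)) * Dj / a := by
      rw [hτinv]; field_simp; ring
    rw [this]
    gcongr
    linarith
  have c6 : 1 / τ * Di / a ≤ 4 * (lam + 1) / ((lam - 1) * a) * Di := by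
    have : 4 * (lam + 1) / ((lam - 1) * a) * Di = (2 * (1 / τ)) * Di / a := by
      rw [hτinv]; field_simp; ring
    rw [this]
    gcongr
    linarith
  linarith [mul_add (4 * (lam + 1) / ((lam - 1) * a)) Di Dj]

theorem cmp : CmpStatement := by
  intro L M lam a a₂ m N d u v w t i j hc hi hj ht ha hl h1 h2 h3
  have hL := hc.hL
  have hl0 : 0 < lam - 1 := by linarith
  have hl1 : 0 < lam + 1 := by linarith
  have hdi : 0 < d i := hc.hd i
  have hdj : 0 < d j := hc.hd j
  set τ := (lam - 1) / (2 * (lam + 1)) with hτ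
  have hτ0 : 0 < τ := by positivity
  have cY := contYc hc ht
  have cr : ∀ k, Pres L u k → ContinuousOn (fun x => d k * (v k t x / u k t x)) (Icc 0 L) :=
    fun k hk => continuousOn_const.mul (contQ hc hk ht)
  have iY : IntervalIntegrable (fun x => Yc L m u t x ^ 2) volume 0 L := ii_of_cont hL (cY.pow 2)
  have ir : ∀ k, Pres L u k →
      IntervalIntegrable (fun x => (d k * (v k t x / u k t x)) ^ 2) volume 0 L :=
    fun k hk => ii_of_cont hL ((cr k hk).pow 2)
  have iD : ∀ k, Pres L u k → IntervalIntegrable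
      (fun x => (d k * (v k t x / u k t x) - Yc L m u t x) ^ 2) volume 0 L :=
    fun k hk => ii_of_cont hL (((cr k hk).sub cY).pow 2)
  have ey : ∀ k, d k * yy L u v k t = (∫ x in (0)..L, (d k * (v k t x / u k t x)) ^ 2) / d k := by
    intro k
    have hk := hc.hd k
    have : ∀ x, (d k * (v k t x / u k t x)) ^ 2 = d k ^ 2 * (v k t x / u k t x) ^ 2 :=
      fun x => by ring
    simp only [this]
    rw [intervalIntegral.integral_const_mul, yy]
    field_simp
  rw [ey i, ey j]
  refine cmp_alg lam a a₂ (d i) (d j) (YN L m u t) (De L m d u v i t) (De L m d u v j t) _ _ ha hl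
    h1 h2 h3 ?_ ?_ ?_ ?_ ?_
  · exact intervalIntegral.integral_nonneg hL.le fun x _ => sq_nonneg _
  · exact intervalIntegral.integral_nonneg hL.le fun x _ => sq_nonneg _
  · exact intervalIntegral.integral_nonneg hL.le fun x _ => sq_nonneg _
  · rw [YN, De, ← intervalIntegral.integral_const_mul, ← intervalIntegral.integral_const_mul,
      ← intervalIntegral.integral_add (iY.const_mul _) ((iD j hj).const_mul _)]
    refine intervalIntegral.integral_mono_on hL.le (ir j hj)
      ((iY.const_mul _).add ((iD j hj).const_mul _)) ?_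
    intro x _
    set p := d j * (v j t x / u j t x)
    set q := Yc L m u t x
    have hmul : 1 / τ * τ = 1 := by field_simp
    have hp : 0 ≤ 1 / τ := by positivity
    have : 0 ≤ τ * q ^ 2 - 2 * q * (p - q) + 1 / τ * (p - q) ^ 2 := by
      have h := mul_nonneg hp (sq_nonneg (τ * q - (p - q)))
      have e : 1 / τ * (τ * q - (p - q)) ^ 2 = (1 / τ * τ) * (τ * q ^ 2) -
          2 * (1 / τ * τ) * (q * (p - q)) + 1 / τ * (p - q) ^ 2 := by ring
      rw [e, hmul] at h
      linarith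
    have e2 : p ^ 2 = q ^ 2 + 2 * q * (p - q) + (p - q) ^ 2 := by ring
    rw [← hτ, e2]
    linarith
  · rw [YN, De, ← intervalIntegral.integral_const_mul, ← intervalIntegral.integral_const_mul,
      ← intervalIntegral.integral_sub (iY.const_mul _) ((iD i hi).const_mul _)]
    refine intervalIntegral.integral_mono_on hL.le
      ((iY.const_mul _).sub ((iD i hi).const_mul _)) (ir i hi) ?_
    intro x _
    set p := d i * (v i t x / u i t x)
    set q := Yc L m u t x
    have hmul : 1 / τ * τ = 1 := by field_simp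
    have hp : 0 ≤ 1 / τ := by positivity
    have : 0 ≤ τ * q ^ 2 + 2 * q * (p - q) + 1 / τ * (p - q) ^ 2 := by
      have h := mul_nonneg hp (sq_nonneg (τ * q + (p - q)))
      have e : 1 / τ * (τ * q + (p - q)) ^ 2 = (1 / τ * τ) * (τ * q ^ 2) +
          2 * (1 / τ * τ) * (q * (p - q)) + 1 / τ * (p - q) ^ 2 := by ring
      rw [e, hmul] at h
      linarith
    have e2 : p ^ 2 = q ^ 2 + 2 * q * (p - q) + (p - q) ^ 2 := by ring
    rw [← hτ, e2]
    have := sq_nonneg (p - q)
    linarith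

end Pool.Agent.Lib.MP_4fbe7c_an.WH.H65
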