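import Pool.Agent.Lib.MP_4fbe7c_an.WH.H65.Base
import Pool.Agent.Lib.MP_4fbe7c_an.FC.H16.PA

/-!
Project WH, module LOW: lower bound for `YN`.
-/

set_option autoImplicit false

open Set MeasureTheory

namespace Pool.Agent.Lib.MP_4fbe7c_an.WH.H65

open Pool.Agent.Lib.MP_4fbe7c_an.SD Pool.Agent.Lib.MP_4fbe7c_an.FC
open Pool.Agent.Lib.MP_4fbe7c_an.WH

/-- The deviation of a primitive from the linear one is controlled by `∫ |f'|`. -/
theorem prim_dev {L : ℝ} (hL : 0 < L) {f f' : ℝ → ℝ} (h : DerivOn L f f')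
    (hc : ContinuousOn f' (Icc 0 L)) {x : ℝ} (hx : x ∈ Icc 0 L) :
    |(∫ z in (0)..x, f z) - x / L * ∫ z in (0)..L, f z| ≤ L * ∫ z in (0)..L, |f' z| := by
  have hif : IntervalIntegrable f volume 0 L := ii_of_cont hL h.continuousOn
  have hia : IntervalIntegrable (fun z => |f' z|) volume 0 L := ii_of_cont hL hc.abs
  set J := ∫ z in (0)..L, |f' z| with hJ
  have hJ0 : 0 ≤ J := intervalIntegral.integral_nonneg hL.le fun z _ => abs_nonneg _
  have h1 : ∀ z ∈ Icc 0 L, ∀ s ∈ Icc 0 L, |f z - f s| ≤ J := by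
    intro z hz s hs
    rw [← integral_deriv_sub h hc hs hz]
    have hsub : uIcc s z ⊆ Icc 0 L := uIcc_subset_Icc hs hz
    calc |∫ y in s..z, f' y| ≤ abs (∫ y in s..z, abs (f' y)) := by
          have h0 := intervalIntegral.norm_integral_le_abs_integral_norm
            (f := f') (a := s) (b := z) (μ := volume)
          simpa only [Real.norm_eq_abs] using h0
      _ ≤ abs (∫ y in (0)..L, abs (f' y)) := by
          refine intervalIntegral.abs_integral_mono_interval ?_ ?_ hia
          · rw [uIoc_of_le hL.le]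
            intro y hy
            rw [mem_uIoc] at hy
            rcases hy with hy | hy
            · exact ⟨lt_of_le_of_lt hs.1 hy.1, hy.2.trans hz.2⟩
            · exact ⟨lt_of_le_of_lt hz.1 hy.1, hy.2.trans hs.2⟩
          · exact Filter.Eventually.of_forall fun y => abs_nonneg _
      _ = J := abs_of_nonneg hJ0
  set c := (∫ z in (0)..L, f z) / L with hcdef
  have h2 : ∀ z ∈ Icc 0 L, |f z - c| ≤ J := by
    intro z hz
    have e : L * (f z - c) = ∫ s in (0)..L, (f z - f s) := by
      rw [intervalIntegral.integral_sub (by simp) hif, intervalIntegral.integral_const, hcdef]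
      simp only [sub_zero, smul_eq_mul]
      field_simp
    have h3 : |∫ s in (0)..L, (f z - f s)| ≤ J * |L - 0| := by
      refine intervalIntegral.norm_integral_le_of_norm_le_const (f := fun s => f z - f s) ?_
      intro s hs
      rw [uIoc_of_le hL.le] at hs
      exact h1 z hz s ⟨hs.1.le, hs.2⟩
    rw [← e, abs_mul, abs_of_pos hL, sub_zero, abs_of_pos hL, mul_comm] at h3
    exact le_of_mul_le_mul_right h3 hL
  have e1 : (∫ z in (0)..x, f z) - x / L * ∫ z in (0)..L, f z = ∫ z in (0)..x, (f z - c) := by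
    have hix : IntervalIntegrable f volume 0 x :=
      hif.mono_set (by
        rw [uIcc_of_le hL.le, uIcc_of_le hx.1]
        exact Icc_subset_Icc le_rfl hx.2)
    rw [intervalIntegral.integral_sub hix (by simp), intervalIntegral.integral_const, hcdef]
    simp only [sub_zero, smul_eq_mul]
    ring
  rw [e1]
  have h4 : |∫ z in (0)..x, (f z - c)| ≤ J * |x - 0| := by
    refine intervalIntegral.norm_integral_le_of_norm_le_const (f := fun z => f z - c) ?_
    intro z hz
    rw [uIoc_of_le hx.1] at hz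
    exact h2 z ⟨hz.1.le, hz.2.trans hx.2⟩
  rw [sub_zero, abs_of_nonneg hx.1] at h4
  calc _ ≤ J * x := h4
    _ ≤ J * L := mul_le_mul_of_nonneg_left hx.2 hJ0
    _ = L * J := mul_comm _ _

/-- Cauchy-Schwarz on `[0, L]`. -/
theorem cs {L : ℝ} (hL : 0 < L) {g : ℝ → ℝ} (hg : ContinuousOn g (Icc 0 L)) :
    (∫ x in (0)..L, |g x|) ^ 2 ≤ L * ∫ x in (0)..L, g x ^ 2 := by
  set J := ∫ x in (0)..L, |g x| with hJ
  have i1 : IntervalIntegrable (fun z => |g z|) volume 0 L := ii_of_cont hL hg.abs
  have i2 : IntervalIntegrable (fun z => g z ^ 2) volume 0 L := ii_of_cont hL (hg.pow 2)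
  have h0 : 0 ≤ ∫ x in (0)..L, (|g x| - J / L) ^ 2 :=
    intervalIntegral.integral_nonneg hL.le fun z _ => sq_nonneg _
  have e : ∀ x, (|g x| - J / L) ^ 2 = g x ^ 2 - 2 * (J / L) * |g x| + (J / L) ^ 2 := by
    intro x
    rw [sub_sq, sq_abs]
    ring
  simp only [e] at h0
  rw [intervalIntegral.integral_add (i2.sub (i1.const_mul _)) (by simp),
    intervalIntegral.integral_sub i2 (i1.const_mul _), intervalIntegral.integral_const_mul,
    intervalIntegral.integral_const, ← hJ] at h0
  simp only [sub_zero, smul_eq_mul] at h0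
  have e2 : (∫ x in (0)..L, g x ^ 2) - 2 * (J / L) * J + L * (J / L) ^ 2 =
      (∫ x in (0)..L, g x ^ 2) - J ^ 2 / L := by
    field_simp
    ring
  rw [e2] at h0
  have h1 : J ^ 2 / L ≤ ∫ x in (0)..L, g x ^ 2 := by linarith
  rw [div_le_iff₀ hL] at h1
  linarith

/-- The variance is at most the second moment. -/
theorem var_le {L : ℝ} (hL : 0 < L) {g : ℝ → ℝ} (hg : ContinuousOn g (Icc 0 L)) :
    ∫ x in (0)..L, (g x - (∫ z in (0)..L, g z) / L) ^ 2 ≤ ∫ x in (0)..L, g x ^ 2 := by
  have i1 : IntervalIntegrable g volume 0 L := ii_of_cont hL hg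
  have i2 : IntervalIntegrable (fun z => g z ^ 2) volume 0 L := ii_of_cont hL (hg.pow 2)
  set J := ∫ x in (0)..L, g x with hJ
  have e : ∀ x, (g x - J / L) ^ 2 = g x ^ 2 - 2 * (J / L) * g x + (J / L) ^ 2 := by
    intro x
    ring
  simp only [e]
  rw [intervalIntegral.integral_add (i2.sub (i1.const_mul _)) (by simp),
    intervalIntegral.integral_sub i2 (i1.const_mul _), intervalIntegral.integral_const_mul,
    intervalIntegral.integral_const, ← hJ]
  simp only [sub_zero, smul_eq_mul]
  have e2 : (∫ x in (0)..L, g x ^ 2) - 2 * (J / L) * J + L * (J / L) ^ 2 =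
      (∫ x in (0)..L, g x ^ 2) - J ^ 2 / L := by
    field_simp
    ring
  rw [e2]
  have : 0 ≤ J ^ 2 / L := by positivity
  linarith

theorem mem_PS {L : ℝ} {N : ℕ} {u : Fin N → ℝ → ℝ → ℝ} {k : Fin N} :
    k ∈ PS L u ↔ Pres L u k := by
  classical
  simp [PS]

theorem low_alg (L b κ Cy a YN A2 e4 De Q2 V2 : ℝ) (hL : 0 < L) (hb : 0 < b)
    (ha : 0 < a) (hY : 0 ≤ YN) (hA : 0 ≤ A2) (he : 0 ≤ e4)
    (h1 : Q2 ≤ 2 * YN + 2 * (L ^ 4 * V2))
    (h2 : V2 ≤ 2 / a ^ 2 * ((4 * b * Real.exp κ) ^ 2 * YN +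
      (4 * b * Real.exp κ) * (Real.exp κ * De)))
    (h3 : De ≤ 2 * L ^ 2 * (Real.exp κ * A2) + 8 * b * L * Cy ^ 2 * e4) :
    Q2 ≤ (2 + 4 * L ^ 4 / a ^ 2 * ((4 * b * Real.exp κ) ^ 2 +
      (4 * b * Real.exp κ) * (Real.exp κ * (2 * L ^ 2 * Real.exp κ + 8 * b * L * Cy ^ 2)))) *
        (YN + A2 + e4) := by
  set B := 4 * b * Real.exp κ with hB
  have hB0 : 0 < B := by positivity
  set E := Real.exp κ with hE
  have hE0 : 0 < E := Real.exp_pos κ
  set c := 4 * L ^ 4 / a ^ 2 with hc
  have hc0 : 0 < c := by positivity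
  have k1 : Q2 ≤ 2 * YN + c * (B ^ 2 * YN + B * (E * De)) := by
    have : 2 * (L ^ 4 * V2) ≤ 2 * (L ^ 4 * (2 / a ^ 2 * (B ^ 2 * YN + B * (E * De)))) := by
      gcongr
    have e : 2 * (L ^ 4 * (2 / a ^ 2 * (B ^ 2 * YN + B * (E * De)))) =
        c * (B ^ 2 * YN + B * (E * De)) := by
      rw [hc]; ring
    linarith
  have k2 : c * (B * (E * De)) ≤ c * (B * (E * (2 * L ^ 2 * (E * A2) +
      8 * b * L * Cy ^ 2 * e4))) := by
    gcongr
  have hP : 0 ≤ c * (B * E) := by positivity
  have hq1 : 0 ≤ 2 * L ^ 2 * E := by positivity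
  have hq2 : 0 ≤ 8 * b * L * Cy ^ 2 := by positivity
  have hcB : 0 ≤ c * B ^ 2 := by positivity
  have k3 : (2 + c * (B ^ 2 + B * (E * (2 * L ^ 2 * E + 8 * b * L * Cy ^ 2)))) *
      (YN + A2 + e4) - (2 * YN + c * (B ^ 2 * YN) + c * (B * (E * (2 * L ^ 2 * (E * A2) +
      8 * b * L * Cy ^ 2 * e4)))) = 2 * (A2 + e4) + c * B ^ 2 * (A2 + e4) +
        c * (B * E) * (2 * L ^ 2 * E * (YN + e4) + 8 * b * L * Cy ^ 2 * (YN + A2)) := by
    ring
  have k4 : 0 ≤ 2 * (A2 + e4) + c * B ^ 2 * (A2 + e4) +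
        c * (B * E) * (2 * L ^ 2 * E * (YN + e4) + 8 * b * L * Cy ^ 2 * (YN + A2)) := by
    positivity
  have k5 : c * (B ^ 2 * YN + B * (E * De)) = c * (B ^ 2 * YN) + c * (B * (E * De)) := by ring
  linarith

theorem low (hdel : DelStatement) : LowStatement := by
  intro L b κ Cy a hL hb hκ hCy ha
  refine ⟨2 + 4 * L ^ 4 / a ^ 2 * ((4 * b * Real.exp κ) ^ 2 +
      (4 * b * Real.exp κ) * (Real.exp κ * (2 * L ^ 2 * Real.exp κ + 8 * b * L * Cy ^ 2))),
      by positivity, ?_⟩
  intro ε m μ N d u v w t hc hw hda ht hreg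
  have hS := hc.sol
  have cu : ∀ k, ContinuousOn (u k t) (Icc 0 L) := fun k => slice (hS.cu k) (mem_Ici.2 ht.le)
  have cv : ∀ k, ContinuousOn (v k t) (Icc 0 L) := fun k => slice (hS.cv k) (mem_Ioi.2 ht)
  have cw : ∀ k, ContinuousOn (w k t) (Icc 0 L) := fun k => slice (hS.cw k) (mem_Ioi.2 ht)
  have cY := contYc hc ht
  -- absent species
  have habs : ∀ k, k ∉ PS L u → ∀ x ∈ Icc 0 L, u k t x = 0 := by
    intro k hk x hx
    have h := (H16.pa L (2 * b) m N d u v w hc k).1
    rcases h with h | h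
    · exact absurd (mem_PS.2 h) hk
    · exact h t ht.le x hx
  have habsv : ∀ k, k ∉ PS L u → ∀ x ∈ Icc 0 L, v k t x = 0 := by
    intro k hk x hx
    have h1 := hS.dx k t ht x hx
    have h2 : HasDerivWithinAt (u k t) 0 (Icc 0 L) x :=
      (hasDerivWithinAt_const x (Icc 0 L) (0 : ℝ)).congr (fun y hy => habs k hk y hy)
        (habs k hk x hx)
    exact (uniqueDiffOn_Icc hL x hx).eq_deriv _ h1 h2
  -- the total density
  have dU : DerivOn L (fun x => ∑ i, u i t x) (fun x => ∑ i, v i t x) := by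
    intro x hx
    exact HasDerivWithinAt.fun_sum fun i _ => hS.dx i t ht x hx
  have cU' : ContinuousOn (fun x => ∑ i, v i t x) (Icc 0 L) :=
    continuousOn_finsetSum _ fun i _ => cv i
  have cU : ContinuousOn (fun x => ∑ i, u i t x) (Icc 0 L) :=
    continuousOn_finsetSum _ fun i _ => cu i
  -- the identity for Yc
  have hid : ∀ x ∈ Icc 0 L, ε * ((∫ z in (0)..x, μ z) - x / L * ∫ z in (0)..L, μ z) =
      ((∫ z in (0)..x, ∑ i, u i t z) - x / L * ∫ z in (0)..L, ∑ i, u i t z) -
        Yc L m u t x := by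
    have key : ∀ x ∈ Icc 0 L, (∫ z in (0)..x, (m z - ∑ i, u i t z)) =
        b * x + ε * (∫ z in (0)..x, μ z) - ∫ z in (0)..x, ∑ i, u i t z := by
      intro x hx
      have hsub : uIcc 0 x ⊆ Icc 0 L := by
        rw [uIcc_of_le hx.1]; exact Icc_subset_Icc le_rfl hx.2
      have e0 : ∫ z in (0)..x, (m z - ∑ i, u i t z) =
          ∫ z in (0)..x, ((b + ε * μ z) - ∑ i, u i t z) :=
        intervalIntegral.integral_congr fun z hz => by
          simp only [hw.hm z (hsub hz)]
      have iμ : IntervalIntegrable μ volume 0 x := (hw.cμ.mono hsub).intervalIntegrable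
      have iU : IntervalIntegrable (fun z => ∑ i, u i t z) volume 0 x :=
        (cU.mono hsub).intervalIntegrable
      rw [e0, intervalIntegral.integral_sub ((by simp : IntervalIntegrable (fun _ => b) volume 0 x).add
        (iμ.const_mul ε)) iU, intervalIntegral.integral_add (by simp) (iμ.const_mul ε),
        intervalIntegral.integral_const_mul, intervalIntegral.integral_const]
      simp only [sub_zero, smul_eq_mul]
      ring
    intro x hx
    unfold Yc
    rw [key x hx, key L ⟨hL.le, le_rfl⟩]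
    field_simp
    ring
  set J := ∫ z in (0)..L, |∑ i, v i t z| with hJ
  set V2 := ∫ z in (0)..L, (∑ i, v i t z) ^ 2 with hV2
  have hJ2 : J ^ 2 ≤ L * V2 := cs hL cU'
  have iY : IntervalIntegrable (fun x => Yc L m u t x ^ 2) volume 0 L := ii_of_cont hL (cY.pow 2)
  have hYN : 0 ≤ YN L m u t := intervalIntegral.integral_nonneg hL.le fun x _ => sq_nonneg _
  have hA2 : 0 ≤ A2 L m d u w t := by
    unfold A2
    refine Finset.sum_nonneg fun k hk => intervalIntegral.integral_nonneg hL.le fun x hx => ?_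
    have := (mem_PS.1 hk) t ht x hx
    positivity
  -- first inequality
  have hfirst : ε ^ 2 * (∫ x in (0)..L, ((∫ z in (0)..x, μ z) -
      x / L * ∫ z in (0)..L, μ z) ^ 2) ≤ 2 * YN L m u t + 2 * (L ^ 4 * V2) := by
    have cQ : ContinuousOn (fun x => (∫ z in (0)..x, μ z) - x / L * ∫ z in (0)..L, μ z)
        (Icc 0 L) :=
      (contPrim hL hw.cμ).sub (ContinuousOn.mul (continuousOn_id.div_const L) continuousOn_const)
    rw [← intervalIntegral.integral_const_mul]
    have h1 : ∫ x in (0)..L, ε ^ 2 * ((∫ z in (0)..x, μ z) -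
        x / L * ∫ z in (0)..L, μ z) ^ 2 ≤
        ∫ x in (0)..L, (2 * Yc L m u t x ^ 2 + 2 * (L * J) ^ 2) := by
      refine intervalIntegral.integral_mono_on hL.le
        (ii_of_cont hL (continuousOn_const.mul (cQ.pow 2))) ((iY.const_mul 2).add (by simp)) ?_
      intro x hx
      have e := hid x hx
      have hd := prim_dev hL dU cU' hx
      rw [← mul_pow, e]
      set E := (∫ z in (0)..x, ∑ i, u i t z) - x / L * ∫ z in (0)..L, ∑ i, u i t z
      have hE2 : E ^ 2 ≤ (L * J) ^ 2 := by
        rw [← sq_abs E]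
        exact pow_le_pow_left₀ (abs_nonneg _) hd 2
      nlinarith [sq_nonneg (E + Yc L m u t x)]
    refine h1.trans ?_
    rw [intervalIntegral.integral_add (iY.const_mul 2) (by simp),
      intervalIntegral.integral_const_mul, intervalIntegral.integral_const]
    simp only [sub_zero, smul_eq_mul]
    have : L * (2 * (L * J) ^ 2) ≤ 2 * (L ^ 4 * V2) := by
      calc L * (2 * (L * J) ^ 2) = 2 * (L ^ 3 * J ^ 2) := by ring
        _ ≤ 2 * (L ^ 3 * (L * V2)) := by gcongr
        _ = 2 * (L ^ 4 * V2) := by ring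
    rw [YN]
    linarith
  -- second inequality
  have hgpos : ∀ k, 0 < gm L u k t := fun k => Real.exp_pos _
  have hsumu : ∀ x ∈ Icc 0 L, ∑ k ∈ PS L u, u k t x ≤ 4 * b * Real.exp κ := by
    intro x hx
    calc ∑ k ∈ PS L u, u k t x ≤ ∑ k ∈ PS L u, gm L u k t * Real.exp κ :=
          Finset.sum_le_sum fun k hk => hreg.up k hk x hx
      _ = Wg L u t * Real.exp κ := by rw [Wg, Finset.sum_mul]
      _ ≤ 4 * b * Real.exp κ := by
          have := hreg.wg
          gcongr
  have hpos : ∀ k ∈ PS L u, ∀ x ∈ Icc 0 L, 0 < u k t x := fun k hk x hx =>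
    (mem_PS.1 hk) t ht x hx
  have cdel : ∀ k ∈ PS L u,
      ContinuousOn (fun x => d k * (v k t x / u k t x) - Yc L m u t x) (Icc 0 L) :=
    fun k hk => (continuousOn_const.mul (contQ hc (mem_PS.1 hk) ht)).sub cY
  have hsecond : V2 ≤ 2 / a ^ 2 * ((4 * b * Real.exp κ) ^ 2 * YN L m u t +
      (4 * b * Real.exp κ) * (Real.exp κ * ∑ k ∈ PS L u, gm L u k t * De L m d u v k t)) := by
    have hpt : ∀ x ∈ Icc 0 L, (∑ i, v i t x) ^ 2 ≤ 2 / a ^ 2 * ((4 * b * Real.exp κ) ^ 2 *
        Yc L m u t x ^ 2 + (4 * b * Real.exp κ) * (Real.exp κ * ∑ k ∈ PS L u, gm L u k t *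
          (d k * (v k t x / u k t x) - Yc L m u t x) ^ 2)) := by
      intro x hx
      set δ : Fin N → ℝ := fun k => d k * (v k t x / u k t x) - Yc L m u t x with hδ
      set B := 4 * b * Real.exp κ with hB
      have hB0 : 0 < B := by positivity
      set Su := ∑ k ∈ PS L u, u k t x with hSu
      have hSu0 : 0 ≤ Su := Finset.sum_nonneg fun k hk => (hpos k hk x hx).le
      have hSuB : Su ≤ B := hsumu x hx
      have e1 : ∑ i, v i t x = ∑ k ∈ PS L u, v k t x := by
        symm
        refine Finset.sum_subset (Finset.subset_univ _) fun k _ hk => habsv k hk x hx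
      have e2 : |∑ k ∈ PS L u, v k t x| ≤
          (Su * |Yc L m u t x| + ∑ k ∈ PS L u, u k t x * |δ k|) / a := by
        calc |∑ k ∈ PS L u, v k t x| ≤ ∑ k ∈ PS L u, |v k t x| := Finset.abs_sum_le_sum_abs _ _
          _ ≤ ∑ k ∈ PS L u, (u k t x * |Yc L m u t x| + u k t x * |δ k|) / a := by
              refine Finset.sum_le_sum fun k hk => ?_
              have hu := hpos k hk x hx
              have hd := hc.hd k
              have hdk := hda k (mem_PS.1 hk)
              have e3 : v k t x = u k t x * (Yc L m u t x + δ k) / d k := by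
                simp only [hδ]
                field_simp
                ring
              rw [e3, abs_div, abs_of_pos hd, abs_mul, abs_of_pos hu, ← mul_add]
              have h5 : |Yc L m u t x + δ k| ≤ |Yc L m u t x| + |δ k| := abs_add_le _ _
              gcongr
          _ = _ := by
              rw [← Finset.sum_div, Finset.sum_add_distrib, ← Finset.sum_mul]
      have e4 : (∑ k ∈ PS L u, u k t x * |δ k|) ^ 2 ≤ Su * ∑ k ∈ PS L u, u k t x * δ k ^ 2 := by
        refine Finset.sum_sq_le_sum_mul_sum_of_sq_le_mul _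
          (fun k hk => (hpos k hk x hx).le)
          (fun k hk => mul_nonneg (hpos k hk x hx).le (sq_nonneg _)) ?_
        intro k _
        rw [mul_pow, sq_abs]
        exact le_of_eq (by ring)
      have e5 : ∑ k ∈ PS L u, u k t x * δ k ^ 2 ≤
          Real.exp κ * ∑ k ∈ PS L u, gm L u k t * δ k ^ 2 := by
        rw [Finset.mul_sum]
        refine Finset.sum_le_sum fun k hk => ?_
        have h6 := hreg.up k hk x hx
        have h7 := sq_nonneg (δ k)
        calc u k t x * δ k ^ 2 ≤ (gm L u k t * Real.exp κ) * δ k ^ 2 := by gcongr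
          _ = _ := by ring
      have hG0 : 0 ≤ Real.exp κ * ∑ k ∈ PS L u, gm L u k t * δ k ^ 2 := by
        have : 0 ≤ ∑ k ∈ PS L u, gm L u k t * δ k ^ 2 :=
          Finset.sum_nonneg fun k _ => mul_nonneg (hgpos k).le (sq_nonneg _)
        positivity
      have e6 : (∑ k ∈ PS L u, u k t x * |δ k|) ^ 2 ≤
          B * (Real.exp κ * ∑ k ∈ PS L u, gm L u k t * δ k ^ 2) := by
        refine e4.trans ?_
        calc Su * ∑ k ∈ PS L u, u k t x * δ k ^ 2 ≤
              Su * (Real.exp κ * ∑ k ∈ PS L u, gm L u k t * δ k ^ 2) := by gcongr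
          _ ≤ B * (Real.exp κ * ∑ k ∈ PS L u, gm L u k t * δ k ^ 2) := by gcongr
      rw [e1, ← sq_abs]
      set P := Su * |Yc L m u t x| with hP
      set R := ∑ k ∈ PS L u, u k t x * |δ k| with hR
      have hR0 : 0 ≤ R := Finset.sum_nonneg fun k hk =>
        mul_nonneg (hpos k hk x hx).le (abs_nonneg _)
      have hP0 : 0 ≤ P := mul_nonneg hSu0 (abs_nonneg _)
      have e7 : |∑ k ∈ PS L u, v k t x| ^ 2 ≤ ((P + R) / a) ^ 2 :=
        pow_le_pow_left₀ (abs_nonneg _) e2 2
      have e8 : P ^ 2 ≤ B ^ 2 * Yc L m u t x ^ 2 := by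
        rw [hP, mul_pow, sq_abs]
        gcongr
      refine e7.trans ?_
      rw [div_pow]
      calc (P + R) ^ 2 / a ^ 2 ≤ (2 * (P ^ 2 + R ^ 2)) / a ^ 2 := by
            gcongr
            nlinarith [sq_nonneg (P - R)]
        _ = 2 / a ^ 2 * (P ^ 2 + R ^ 2) := by ring
        _ ≤ _ := by gcongr
    have cR : ContinuousOn (fun x => 2 / a ^ 2 * ((4 * b * Real.exp κ) ^ 2 *
        Yc L m u t x ^ 2 + (4 * b * Real.exp κ) * (Real.exp κ * ∑ k ∈ PS L u, gm L u k t *
          (d k * (v k t x / u k t x) - Yc L m u t x) ^ 2))) (Icc 0 L) := by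
      refine continuousOn_const.mul ((continuousOn_const.mul (cY.pow 2)).add
        (continuousOn_const.mul (continuousOn_const.mul (continuousOn_finsetSum _ fun k hk =>
          continuousOn_const.mul ((cdel k hk).pow 2)))))
    have h1 : V2 ≤ ∫ x in (0)..L, 2 / a ^ 2 * ((4 * b * Real.exp κ) ^ 2 *
        Yc L m u t x ^ 2 + (4 * b * Real.exp κ) * (Real.exp κ * ∑ k ∈ PS L u, gm L u k t *
          (d k * (v k t x / u k t x) - Yc L m u t x) ^ 2)) :=
      intervalIntegral.integral_mono_on hL.le (ii_of_cont hL (cU'.pow 2)) (ii_of_cont hL cR) hpt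
    refine h1.trans (le_of_eq ?_)
    have hik : ∀ k ∈ PS L u, IntervalIntegrable (fun x => gm L u k t *
        (d k * (v k t x / u k t x) - Yc L m u t x) ^ 2) volume 0 L :=
      fun k hk => ii_of_cont hL (continuousOn_const.mul ((cdel k hk).pow 2))
    have his : IntervalIntegrable (fun x => ∑ k ∈ PS L u, gm L u k t *
        (d k * (v k t x / u k t x) - Yc L m u t x) ^ 2) volume 0 L :=
      ii_of_cont hL (continuousOn_finsetSum _ fun k hk =>
        continuousOn_const.mul ((cdel k hk).pow 2))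
    rw [intervalIntegral.integral_const_mul,
      intervalIntegral.integral_add (iY.const_mul _) ((his.const_mul _).const_mul _),
      intervalIntegral.integral_const_mul, intervalIntegral.integral_const_mul,
      intervalIntegral.integral_const_mul, intervalIntegral.integral_finsetSum hik]
    have e9 : ∑ k ∈ PS L u, ∫ x in (0)..L, gm L u k t *
        (d k * (v k t x / u k t x) - Yc L m u t x) ^ 2 =
        ∑ k ∈ PS L u, gm L u k t * De L m d u v k t := by
      refine Finset.sum_congr rfl fun k _ => ?_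
      rw [intervalIntegral.integral_const_mul, De]
    rw [e9, YN]
  -- third inequality
  have hthird : ∑ k ∈ PS L u, gm L u k t * De L m d u v k t ≤
      2 * L ^ 2 * (Real.exp κ * A2 L m d u w t) + 8 * b * L * Cy ^ 2 * ε ^ 4 := by
    have h1 : ∀ k ∈ PS L u, gm L u k t * De L m d u v k t ≤
        2 * L ^ 2 * (Real.exp κ * ∫ x in (0)..L, u k t x * Tt m d u w k t x ^ 2) +
          gm L u k t * (2 * L * (Cy * ε ^ 2) ^ 2) := by
      intro k hk
      have hg := hgpos k
      have hD := hdel L b ε κ Cy m N d u v w t k hc ht hreg hk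
      have cT : ContinuousOn (Tt m d u w k t) (Icc 0 L) := by
        unfold Tt
        exact (continuousOn_const.mul ((cw k).div (cu k) fun x hx => (hpos k hk x hx).ne')).add
          (contR hc ht)
      have h2 : Sd L m d u w k t ≤ ∫ x in (0)..L, Tt m d u w k t x ^ 2 := var_le hL cT
      have h3 : gm L u k t * ∫ x in (0)..L, Tt m d u w k t x ^ 2 ≤
          Real.exp κ * ∫ x in (0)..L, u k t x * Tt m d u w k t x ^ 2 := by
        rw [← intervalIntegral.integral_const_mul, ← intervalIntegral.integral_const_mul]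
        refine intervalIntegral.integral_mono_on hL.le
          (ii_of_cont hL (continuousOn_const.mul (cT.pow 2)))
          (ii_of_cont hL (continuousOn_const.mul ((cu k).mul (cT.pow 2)))) ?_
        intro x hx
        have h4 := hreg.lo k hk x hx
        have h5 : gm L u k t ≤ Real.exp κ * u k t x := by
          have h6 := mul_le_mul_of_nonneg_left h4 (Real.exp_pos κ).le
          have h7 : Real.exp κ * (gm L u k t * Real.exp (-κ)) = gm L u k t := by
            rw [mul_comm (gm L u k t), ← mul_assoc, ← Real.exp_add]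
            simp
          linarith
        have h8 := sq_nonneg (Tt m d u w k t x)
        calc gm L u k t * Tt m d u w k t x ^ 2 ≤
              (Real.exp κ * u k t x) * Tt m d u w k t x ^ 2 := by gcongr
          _ = _ := by ring
      calc gm L u k t * De L m d u v k t ≤
            gm L u k t * (2 * L ^ 2 * Sd L m d u w k t + 2 * L * (Cy * ε ^ 2) ^ 2) := by gcongr
        _ ≤ gm L u k t * (2 * L ^ 2 * (∫ x in (0)..L, Tt m d u w k t x ^ 2) +
            2 * L * (Cy * ε ^ 2) ^ 2) := by gcongr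
        _ = 2 * L ^ 2 * (gm L u k t * ∫ x in (0)..L, Tt m d u w k t x ^ 2) +
            gm L u k t * (2 * L * (Cy * ε ^ 2) ^ 2) := by ring
        _ ≤ _ := by gcongr
    refine (Finset.sum_le_sum h1).trans ?_
    rw [Finset.sum_add_distrib, ← Finset.mul_sum, ← Finset.mul_sum, ← Finset.sum_mul]
    have h9 : (∑ k ∈ PS L u, gm L u k t) * (2 * L * (Cy * ε ^ 2) ^ 2) ≤
        8 * b * L * Cy ^ 2 * ε ^ 4 := by
      have h10 : ∑ k ∈ PS L u, gm L u k t ≤ 4 * b := hreg.wg
      calc (∑ k ∈ PS L u, gm L u k t) * (2 * L * (Cy * ε ^ 2) ^ 2) ≤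
            (4 * b) * (2 * L * (Cy * ε ^ 2) ^ 2) := by gcongr
        _ = _ := by ring
    rw [A2]
    linarith
  exact low_alg L b κ Cy a _ _ _ _ _ V2 hL hb ha hYN hA2 (by positivity) hfirst hsecond hthird

end Pool.Agent.Lib.MP_4fbe7c_an.WH.H65
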