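import Pool.Agent.Lib.MP_4fbe7c_an.WH.Iface
import Pool.Agent.Lib.MP_4fbe7c_an.SD.Calc

/-!
Project WH: continuity facts used by CMP and LOW.
-/

set_option autoImplicit false

open Set MeasureTheory

namespace Pool.Agent.Lib.MP_4fbe7c_an.WH.H65

open Pool.Agent.Lib.MP_4fbe7c_an.SD Pool.Agent.Lib.MP_4fbe7c_an.FC
open Pool.Agent.Lib.MP_4fbe7c_an.WH

theorem ii_of_cont {L : ℝ} (hL : 0 < L) {f : ℝ → ℝ} (hf : ContinuousOn f (Icc 0 L)) :
    IntervalIntegrable f volume 0 L :=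
  (hf.mono (by rw [uIcc_of_le hL.le])).intervalIntegrable

theorem contR {L M : ℝ} {m : ℝ → ℝ} {N : ℕ} {d : Fin N → ℝ} {u v w : Fin N → ℝ → ℝ → ℝ}
    (h : Ctx L M m d u v w) {t : ℝ} (ht : 0 < t) :
    ContinuousOn (fun x => m x - ∑ i, u i t x) (Icc 0 L) :=
  h.hm.sub (continuousOn_finsetSum _ fun i _ => slice (h.sol.cu i) (mem_Ici.2 ht.le))

theorem contPrim {L : ℝ} (hL : 0 < L) {f : ℝ → ℝ} (hf : ContinuousOn f (Icc 0 L)) :
    ContinuousOn (fun x => ∫ z in (0)..x, f z) (Icc 0 L) := by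
  have h := intervalIntegral.continuousOn_primitive_interval (μ := volume) (a := 0) (b := L)
    (f := f) (by
      rw [uIcc_of_le hL.le]
      exact hf.integrableOn_Icc)
  rwa [uIcc_of_le hL.le] at h

theorem contYc {L M : ℝ} {m : ℝ → ℝ} {N : ℕ} {d : Fin N → ℝ} {u v w : Fin N → ℝ → ℝ → ℝ}
    (h : Ctx L M m d u v w) {t : ℝ} (ht : 0 < t) : ContinuousOn (Yc L m u t) (Icc 0 L) := by
  unfold Yc
  refine (contPrim h.hL (contR h ht)).neg.add ?_
  exact ContinuousOn.mul (continuousOn_id.div_const L) continuousOn_const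

theorem contQ {L M : ℝ} {m : ℝ → ℝ} {N : ℕ} {d : Fin N → ℝ} {u v w : Fin N → ℝ → ℝ → ℝ}
    (h : Ctx L M m d u v w) {k : Fin N} (hk : Pres L u k) {t : ℝ} (ht : 0 < t) :
    ContinuousOn (fun x => v k t x / u k t x) (Icc 0 L) :=
  (slice (h.sol.cv k) (mem_Ioi.2 ht)).div (slice (h.sol.cu k) (mem_Ici.2 ht.le))
    fun x hx => (hk t ht x hx).ne'

end Pool.Agent.Lib.MP_4fbe7c_an.WH.H65
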